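import Mathlib
import Pool.Agent.H680R3.ZP.Stmts

/-!
The lower bound for the reciprocal roots of the `L`-functions of a `ℤ_p`-tower.
-/

set_option autoImplicit false

namespace Pool.Agent.H358R3.ZP

open Pool.Agent.H639R3 H680ZP

/-- the two forms of the Euler product agree -/
theorem eulerL_eq {p : ℕ} [Fact p.Prime] {ι : Type*} (ρ : ι → ℤ_[p]) (d : ι → ℕ)
    (hd : ∀ v, 0 < d v) (hfin : ∀ k, {v | d v ≤ k}.Finite) (n : ℕ) (z : ℂ_[p]) :
    Pool.Agent.H707R3.eulerL ρ d n z =
      eulerProduct d (fun v => z ^ (PadicInt.toZModPow n (ρ v)).val) := by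
  classical
  have h : (fun v => (1 - PowerSeries.C (z ^ Pool.Agent.H707R3.res n (ρ v)) *
      PowerSeries.X ^ d v : PowerSeries ℂ_[p])⁻¹) =
      fun v => Pool.Agent.H707R3.geom (z ^ Pool.Agent.H707R3.res n (ρ v)) (d v) := by
    funext v
    exact Pool.Agent.H707R3.inv_eq_geom _ (hd v).ne'
  ext m
  rw [coeff_eulerProduct d hd hfin, Pool.Agent.H707R3.eulerL, h,
    Pool.Agent.H707R3.coeff_tprod_geom _ _ hfin]
  rfl

theorem taskLB : TaskLB := by
  intro p _ k K L _ _ _ _ _ _ _ _ _ T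
  have hinf : Infinite (ClosedPoint k K) := infinite_points T.curve
  have hne : Nonempty {x : ClosedPoint k K // x ∉ T.S} := by
    obtain ⟨x, hx⟩ := T.finite.exists_notMem
    exact ⟨⟨x, hx⟩⟩
  have hd : ∀ x : {x : ClosedPoint k K // x ∉ T.S}, 0 < x.1.deg := fun x =>
    x.1.deg_pos T.curve
  have hfin : ∀ m, {x : {x : ClosedPoint k K // x ∉ T.S} | x.1.deg ≤ m}.Finite := by
    intro m
    have h1 := (finite_points T.curve m).preimage
      (f := fun x : {x : ClosedPoint k K // x ∉ T.S} => x.1) Subtype.val_injective.injOn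
    exact h1
  obtain ⟨c, hc, N, H⟩ := Pool.Agent.H707R3.core (p := p)
    (fun x : {x : ClosedPoint k K // x ∉ T.S} => (T.iso (frob x.1)).toAdd)
    (fun x : {x : ClosedPoint k K // x ∉ T.S} => x.1.deg) (fun x => (hd x).ne') hfin
  refine ⟨c, hc, N, fun n hn z hz A hA => H n hn z hz A ?_⟩
  rw [eulerL_eq _ _ hd hfin]
  exact hA

end Pool.Agent.H358R3.ZP
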